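import Pool.Agent.E8helper1.TPH.Pub
import Pool.Agent.E8helper1.TX.Hod6

/-!
# The theorem for absolutely Hodge classes
-/

open CategoryTheory AlgebraicGeometry Filter Topology

open scoped ENNReal

universe u

namespace Pool.Agent.E8helper1.TPH

open Module
open Pool.Agent.H914 Pool.Agent.H914.VarClass Pool.Agent.H914.VarClass.Obj
  Pool.Agent.H914.WeilCohomology
open Pool.Agent.Y133.Half (Sys pw)
open Pool.Agent.Y121
open Pool.Agent.Y121.AHS
open Pool.Agent.Y121.AHS.Full (toD isAbsHodge_iff)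
open Pool.Agent.E8helper1.TX (HodgeDec Compat hodge_index hodge_noIV hodge_core SkewFree abs_iff)

set_option linter.unusedSectionVars false

variable {k : Type u} [Field k] {𝒱 : VarClass k} {ops : CycleOps 𝒱}

section tensor

open TensorProduct

variable {W : WeilCohomology.{u, 0} ops} [Algebra W.K ℂ] {X : 𝒱.Obj}

/-- Induction for classes with complex coefficients. -/
theorem hl_ind {p : HL W ℂ X → Prop} (h : ∀ (l : ℂ) (c : W.H X), p (smL l (emL W ℂ c)))
    (h' : ∀ x y, p x → p y → p (x + y)) (x : HL W ℂ X) : p x := by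
  induction x using TensorProduct.induction_on with
  | zero =>
    have h1 := h 0 0
    have h2 : smL (0 : ℂ) (emL W ℂ (0 : W.H X)) = (0 : HL W ℂ X) :=
      zero_smul ℂ (show ℂ ⊗[W.K] W.H X from emL W ℂ (0 : W.H X))
    rw [h2] at h1
    exact h1
  | tmul l c =>
    have h1 := h l c
    have h2 : smL l (emL W ℂ c) = (l ⊗ₜ[W.K] c : ℂ ⊗[W.K] W.H X) := by
      change l • ((1 : ℂ) ⊗ₜ[W.K] c) = _
      rw [TensorProduct.smul_tmul', smul_eq_mul, mul_one]
    rw [h2] at h1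
    exact h1
  | add x y hx hy => exact h' x y hx hy

theorem mulL_sm (l m : ℂ) (a b : W.H X) : mulL (smL l (emL W ℂ a)) (smL m (emL W ℂ b)) =
    smL (l * m) (emL W ℂ (a * b)) := by
  change (l • ((1 : ℂ) ⊗ₜ[W.K] a)) * (m • ((1 : ℂ) ⊗ₜ[W.K] b)) =
    (l * m) • ((1 : ℂ) ⊗ₜ[W.K] (a * b))
  rw [smul_mul_smul_comm, Algebra.TensorProduct.tmul_mul_tmul, one_mul]

theorem mulL_add_left (x y z : HL W ℂ X) : mulL (x + y) z = mulL x z + mulL y z :=
  add_mul (show ℂ ⊗[W.K] W.H X from x) y z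

theorem mulL_add_right (x y z : HL W ℂ X) : mulL x (y + z) = mulL x y + mulL x z :=
  mul_add (show ℂ ⊗[W.K] W.H X from x) y z

theorem mapL_sm {Y : 𝒱.Obj} (f : X ⟶ Y) (l : ℂ) (b : W.H Y) :
    mapL f (smL l (emL W ℂ b)) = smL l (emL W ℂ (W.map f b)) := by
  change (W.map f).toLinearMap.baseChange ℂ (l • ((1 : ℂ) ⊗ₜ[W.K] b)) =
    l • ((1 : ℂ) ⊗ₜ[W.K] W.map f b)
  rw [map_smul, LinearMap.baseChange_tmul]
  rfl

theorem mapL_add {Y : 𝒱.Obj} (f : X ⟶ Y) (x y : HL W ℂ Y) :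
    mapL f (x + y) = mapL f x + mapL f y :=
  map_add ((W.map f).toLinearMap.baseChange ℂ) (show ℂ ⊗[W.K] W.H Y from x) y

theorem trL_sm (l : ℂ) (a : W.H X) : trL (smL l (emL W ℂ a)) =
    l * algebraMap W.K ℂ (W.tr X a) := by
  change TensorProduct.AlgebraTensorModule.rid W.K ℂ ℂ
    ((W.tr X).baseChange ℂ (l • ((1 : ℂ) ⊗ₜ[W.K] a))) = _
  rw [map_smul, LinearMap.baseChange_tmul, map_smul, TensorProduct.AlgebraTensorModule.rid_tmul,
    smul_eq_mul, Algebra.smul_def (W.tr X a) (1 : ℂ), mul_one]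

theorem trL_add (x y : HL W ℂ X) : trL (x + y) = trL x + trL y := by
  change TensorProduct.AlgebraTensorModule.rid W.K ℂ ℂ
    ((W.tr X).baseChange ℂ ((show ℂ ⊗[W.K] W.H X from x) +
      (show ℂ ⊗[W.K] W.H X from y))) = _
  rw [map_add, map_add]
  rfl

end tensor

variable {T : HodgeTheory ops} (C : Conj T)

theorem Conj.cj_sm {X : 𝒱.Obj} (l : ℂ) (c : T.W.H X) : C.cj X (smL l (emL T.W ℂ c)) =
    smL (starRingEnd ℂ l) (emL T.W ℂ c) := by
  rw [(C.is X).smul, (C.is X).real]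

/-- The Hodge decomposition. -/
noncomputable def Conj.toDec : HodgeDec T.W where
  pq := T.pq
  cj := C.cj
  span := T.span
  indep := T.indep
  mul := T.mul
  map := T.map
  cyc := T.cyc
  top := fun X => (C.is X).top
  eff := fun X => (C.is X).eff
  conj := by
    have hadd := fun X => (C.is X).add
    refine ⟨hadd, fun X => (C.is X).smul, fun X x y => ?_, fun X Y f y => ?_,
      fun X z => (C.is X).real _, fun X x => ?_, fun X => (C.is X).type⟩
    · refine hl_ind (p := fun x => ∀ y, C.cj X (mulL x y) = mulL (C.cj X x) (C.cj X y))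
        (fun l a => ?_) (fun x x' hx hx' y => ?_) x y
      · refine hl_ind (fun m b => ?_) (fun y y' hy hy' => ?_)
        · rw [mulL_sm, C.cj_sm, C.cj_sm, C.cj_sm, mulL_sm, map_mul]
        · rw [mulL_add_right, hadd, hy, hy', hadd, mulL_add_right]
      · rw [mulL_add_left, hadd, hx, hx', hadd, mulL_add_left]
    · refine hl_ind (p := fun y => C.cj X (mapL f y) = mapL f (C.cj Y y)) (fun l a => ?_)
        (fun x x' hx hx' => ?_) y
      · rw [mapL_sm, C.cj_sm, C.cj_sm, mapL_sm]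
      · rw [mapL_add, hadd, hx, hx', hadd, mapL_add]
    · change trL (C.cj X x) = starRingEnd ℂ (trL x)
      refine hl_ind (p := fun x => trL (C.cj X x) = starRingEnd ℂ (trL x)) (fun l a => ?_)
        (fun x x' hx hx' => ?_) x
      · rw [C.cj_sm, trL_sm, trL_sm, map_mul]
        congr 1
        obtain ⟨q, hq⟩ := T.rat (T.W.tr X a)
        rw [← hq, map_ratCast, map_ratCast]
      · rw [hadd, trL_add, hx, hx', trL_add, map_add]

theorem Conj.compat : Compat (toH T) C.toDec where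
  pq Z p q x := Iff.rfl
  real := fun X => (C.is X).real

theorem mulLeft_pow {A K : Type} [Field K] [Ring A] [Algebra K A] (ξ : A) (i : ℕ) (a : A) :
    (LinearMap.mulLeft K ξ ^ i) a = ξ ^ i * a := by
  rw [LinearMap.pow_mulLeft, LinearMap.mulLeft_apply]

theorem mulL_pow {W : WeilCohomology.{u, 0} ops} [Algebra W.K ℂ] {X : 𝒱.Obj} (ξ : W.H X) (n : ℕ)
    (x : HL W ℂ X) : (mulL (emL W ℂ ξ))^[n] x = mulL (emL W ℂ (ξ ^ n)) x := by
  open TensorProduct in
  induction n generalizing x with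
  | zero =>
    rw [Function.iterate_zero, id, pow_zero]
    exact (one_mul (show ℂ ⊗[W.K] W.H X from x)).symm
  | succ n ih =>
    rw [Function.iterate_succ_apply, ih]
    change ((1 : ℂ) ⊗ₜ[W.K] (ξ ^ n)) * (((1 : ℂ) ⊗ₜ[W.K] ξ) * (show ℂ ⊗[W.K] W.H X from x)) =
      ((1 : ℂ) ⊗ₜ[W.K] (ξ ^ (n + 1))) * (show ℂ ⊗[W.K] W.H X from x)
    rw [← mul_assoc, Algebra.TensorProduct.tmul_mul_tmul, one_mul, pow_succ]

theorem Conj.polarizes {X : 𝒱.Obj} {D : X.Cycles} (h : C.Polarizes X D) :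
    TX.Polarizes C.toDec X D := by
  obtain ⟨h1, h2, h3⟩ := h
  refine ⟨h1, fun i hi => ?_, fun p q x hpq hx hx0 hprim => ?_⟩
  · obtain ⟨h4, h5⟩ := h2 i hi
    refine ⟨fun a ha h0 => h4 a ha ?_, fun b hb => ?_⟩
    · rwa [mulLeft_pow] at h0
    · obtain ⟨a, ha, hab⟩ := h5 b hb
      exact ⟨a, ha, by rw [mulLeft_pow]; exact hab⟩
  · have h4 := h3 p q x hpq hx hx0 (by rw [mulL_pow]; exact hprim)
    rw [mulL_pow] at h4
    exact h4

theorem span_hodge (Z : 𝒱.Obj) : Submodule.span T.W.K (⋃ j, hodge T Z j) =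
    (AH.hodgeSys (toH T)).C Z := by
  have h : (⋃ j, hodge T Z j) = {c | ∃ j, IsHodge T Z j c} := by
    ext c
    exact Set.mem_iUnion
  rw [h]
  rfl

theorem span_abs {D : Full.Conjugates T} (Z : 𝒱.Obj) :
    dimSpan T.W.K (abs D Z) = Full.absDim D Z := by
  have h : (⋃ j, abs D Z j) = {c | ∃ j, Full.IsAbsHodge D Z j c} := by
    ext c
    exact Set.mem_iUnion
  rw [dimSpan, h]
  rfl

theorem skewFree_of {X : 𝒱.Obj} (h : NoTypeFour T X) : SkewFree (AH.hodgeSys (toH T)) X := by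
  intro a ha hc hs
  have hC : (AH.hodgeSys (toH T)).C (X.prod X) =
      Submodule.span T.W.K (⋃ j, hodge T (X.prod X) j) := (span_hodge (X.prod X)).symm
  have hE : ∀ b ∈ (AH.hodgeSys (toH T)).Op X X, (b : T.W.H X → T.W.H X) ∈
      opsOf (T.W.map (fst X X)) (T.W.push (snd X X))
        (hodge T (X.prod X)) := by
    intro b hb
    obtain ⟨c, hc, rfl⟩ := Pool.Agent.Y133.Half.Sys.mem_Op.1 hb
    refine ⟨c, hC.le hc, fun x => ?_⟩
    exact (corr_apply (W := T.W) c x).symm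
  have hE' : ∀ b ∈ opsOf (T.W.map (fst X X)) (T.W.push (snd X X))
        (hodge T (X.prod X)),
        ∃ b' ∈ (AH.hodgeSys (toH T)).Op X X, ∀ x, b' x = b x := by
    rintro b ⟨c, hc, hb⟩
    refine ⟨T.W.corr (X := X) (Y := X) c, Pool.Agent.Y133.Half.Sys.mem_Op.2 ⟨c, hC.ge hc, rfl⟩,
      fun x => ?_⟩
    rw [← hb]
    exact corr_apply (W := T.W) c x
  refine LinearMap.ext fun x => ?_
  refine h a (hE a ha) ?_ hs x
  intro b hb y
  obtain ⟨b', hb', hbb⟩ := hE' b hb
  have h1 := LinearMap.congr_fun (hc b' hb') y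
  have h2 : a (b' y) = b' (a y) := h1
  rw [hbb, hbb] at h2
  exact h2

section iso

variable {W : WeilCohomology.{u, 0} ops}

theorem sys_iso (S S' : Sys W) {Y Z : 𝒱.Obj} (θ : Y ≅ Z) (h : S.C Z ≤ S'.C Z) :
    S.C Y ≤ S'.C Y := by
  intro c hc
  have h1 := S'.map θ.hom (h (S.map θ.inv hc))
  rwa [← W.map_comp, θ.hom_inv_id, W.map_id] at h1

theorem finrank_le_iso (S : Sys W) {Y Z : 𝒱.Obj} (θ : Y ≅ Z) :
    finrank W.K (S.C Y) ≤ finrank W.K (S.C Z) := by
  let f : S.C Y →ₗ[W.K] S.C Z := (W.map θ.inv).toLinearMap.restrict (fun c hc => S.map θ.inv hc)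
  have hf : Function.Injective f := by
    intro a b hab
    apply Subtype.ext
    have h1 : W.map θ.inv (a : W.H Y) = W.map θ.inv (b : W.H Y) := congrArg Subtype.val hab
    have h2 := congrArg (W.map θ.hom) h1
    rwa [← W.map_comp, ← W.map_comp, θ.hom_inv_id, W.map_id, W.map_id] at h2
  exact LinearMap.finrank_le_finrank_of_injective hf

theorem finrank_iso (S : Sys W) {Y Z : 𝒱.Obj} (θ : Y ≅ Z) :
    finrank W.K (S.C Y) = finrank W.K (S.C Z) :=
  le_antisymm (finrank_le_iso S θ) (finrank_le_iso S θ.symm)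

end iso

open Pool.Agent.Y133.Half (pwIso129)

variable {D : Full.Conjugates T} {X : 𝒱.Obj}

theorem abs_iff' (n : ℕ) : (AH.hodgeSys (toH T)).C (Pool.Agent.Y129.pw X n) ≤
    (AH.absSys (toD D)).C (Pool.Agent.Y129.pw X n) ↔ AbsConj D (pw X n) := by
  have h1 : AbsConj D (pw X n) ↔ (AH.hodgeSys (toH T)).C (pw X n) ≤
    (AH.absSys (toD D)).C (pw X n) := (abs_iff (pw X n)).symm
  rw [h1]
  exact ⟨sys_iso _ _ (pwIso129 X n).symm, sys_iso _ _ (pwIso129 X n)⟩

theorem hodgeDim_eq' (Z : 𝒱.Obj) : hodgeDim T Z = Pool.Agent.Y121.AHS.hodgeDim T Z := by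
  rw [hodgeDim, dimSpan, span_hodge]
  rfl

theorem hodgeDim_eq (n : ℕ) : hodgeDim T (pw X n) =
    finrank (toH T).W.K ((AH.hodgeSys (toH T)).C (Pool.Agent.Y129.pw X n)) := by
  rw [hodgeDim_eq']
  exact (finrank_iso (AH.hodgeSys (toH T)) (pwIso129 X n)).symm

theorem absDim_eq (n : ℕ) : absDim D (pw X n) =
    finrank (toH T).W.K ((AH.absSys (toD D)).C (Pool.Agent.Y129.pw X n)) := by
  rw [absDim, span_abs, ← Full.absDim_eq]
  exact (finrank_iso (AH.absSys (toD D)) (pwIso129 X n)).symm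

/-- **The theorem for absolutely Hodge classes.** -/
theorem abs_law (hX : 0 < hdim T X) {P : X.Cycles} (hP : C.Polarizes X P) (M : ℕ)
    (hM : M = exponent (hdim T X) X.dim ∨ NoTypeFour T X ∧ M = 2) (m : ℕ) (hm : M ≤ m)
    (h : AbsConj D (pw X (2 * m - 1))) :
    ∃ N : ℕ, 1 ≤ N ∧ N ≤ bound (hdim T X) M ∧
      Quot (fun n => hodgeDim T (pw X n)) (fun n => absDim D (pw X n))
        (bound (hdim T X) M) N ∧
      (N = 1 ↔ ∀ n, AbsConj D (pw X n)) ∧
      ((hdim T X : ℝ) ^ 3 * (M : ℝ) ^ 2 * Real.log (2 * hdim T X * M + 1) ≤ m → N = 1) := by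
  have hnt : Nontrivial (T.W.H X) := Module.nontrivial_of_finrank_pos hX
  have hnt' : Nontrivial ((toH T).W.H X) := hnt
  have hb : finrank (toH T).W.K ((toH T).W.H X) = hdim T X := rfl
  have hM1 : 1 ≤ M := by
    rcases hM with rfl | ⟨-, rfl⟩
    · exact Nat.succ_le_of_lt (Nat.mul_pos (Nat.factorial_pos _)
        (Nat.pow_pos (lt_of_lt_of_le Nat.one_pos (le_max_left _ _))))
    · norm_num
  obtain ⟨m', rfl⟩ : ∃ m', m = m' + 1 := ⟨m - 1, by omega⟩
  have e : 2 * (m' + 1) - 1 = m' + m' + 1 := by omega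
  rw [e] at h
  have hle := (abs_iff' (D := D) (X := X) _).2 h
  -- the two statements
  have key : (∀ n, finrank (toH T).W.K ((AH.hodgeSys (toH T)).C (Pool.Agent.Y129.pw X (n + n + 1))) ≤
      bound (hdim T X) M *
        finrank (toH T).W.K ((AH.absSys (toD D)).C (Pool.Agent.Y129.pw X (n + n + 1)))) ∧
      ((hdim T X : ℝ) ^ 3 * (M : ℝ) ^ 2 * Real.log (2 * hdim T X * M + 1) ≤ (m' + 1 : ℕ) →
        ∀ n, (AH.hodgeSys (toH T)).C (Pool.Agent.Y129.pw X n) ≤
          (AH.absSys (toD D)).C (Pool.Agent.Y129.pw X n)) := by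
    rcases hM with rfl | ⟨hIV, rfl⟩
    · refine ⟨fun n => ?_, fun hm' n => ?_⟩
      · exact hodge_index (T := toH T) C.compat (C.polarizes hP) (AH.absSys (toD D))
          (fun Z => AH.abs_le_hodge (toD D) Z) _ rfl m' hm hle n
      · exact hodge_core (T := toH T) Pool.Agent.E8helper89.TX.t_HOP2 C.compat (C.polarizes hP)
          (AH.absSys (toD D)) (fun Z => AH.abs_le_hodge (toD D) Z) _ rfl m' hm' hle n
    · obtain ⟨k1, k2⟩ := hodge_noIV (T := toH T) C.compat (C.polarizes hP) (AH.absSys (toD D))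
        (fun Z => AH.abs_le_hodge (toD D) Z) (skewFree_of hIV)
        (TX.sys_down (X := X) (AH.absSys (toD D)) (AH.hodgeSys (toH T)) (by omega) hle)
      have hb1 : 1 ≤ hdim T X := hX
      refine ⟨fun n => (k1 n).trans (Nat.mul_le_mul_right _ ?_), fun hm' n => ?_⟩
      · rw [bound, hb]
        exact Nat.pow_le_pow_left (by omega) _
      · refine k2 m' ?_ hle n
        rw [hb]
        refine le_trans ?_ hm'
        have hb2 : (1 : ℝ) ≤ hdim T X := by exact_mod_cast hb1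
        have h1 : Real.log (3 * hdim T X) ≤ Real.log (2 * hdim T X * (2 : ℕ) + 1) := by
          apply Real.log_le_log (by positivity)
          push_cast
          nlinarith
        have h2 : 0 ≤ Real.log (3 * hdim T X) := Real.log_nonneg (by nlinarith)
        have h3 : (0 : ℝ) ≤ (hdim T X : ℝ) ^ 3 := by positivity
        push_cast at h1 ⊢
        have h4 := mul_le_mul_of_nonneg_left h1 h3
        have h5 : 0 ≤ (hdim T X : ℝ) ^ 3 * Real.log (3 * hdim T X) := mul_nonneg h3 h2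
        nlinarith
  obtain ⟨k1, k2⟩ := key
  obtain ⟨N, e1, e2, e3, -, -, -⟩ := Full.index_law T D X
  have e2 : Tendsto (fun n => (hodgeDim T (pw X n) : ℝ≥0∞) / absDim D (pw X n)) atTop
      (𝓝 (N : ℝ≥0∞)) := by
    refine e2.congr fun n => ?_
    rw [hodgeDim_eq', absDim, span_abs]
  have hq : ∀ n, hodgeDim T (pw X (2 * n + 1)) ≤
      bound (hdim T X) M * absDim D (pw X (2 * n + 1)) := by
    intro n
    have h1 := k1 n
    have e : n + n + 1 = 2 * n + 1 := by omega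
    rw [e] at h1
    rw [hodgeDim_eq, absDim_eq]
    exact h1
  have hNle : (N : ℝ≥0∞) ≤ ((bound (hdim T X) M : ℕ) : ℝ≥0∞) := by
    have hsub : Tendsto (fun n : ℕ => 2 * n + 1) atTop atTop := by
      refine tendsto_atTop_mono (fun n => ?_) tendsto_id
      change n ≤ 2 * n + 1
      omega
    refine le_of_tendsto (e2.comp hsub) (Eventually.of_forall fun n => ?_)
    change (hodgeDim T (pw X (2 * n + 1)) : ℝ≥0∞) / absDim D (pw X (2 * n + 1)) ≤ _
    refine ENNReal.div_le_of_le_mul ?_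
    exact_mod_cast hq n
  have hNle' : N ≤ (bound (hdim T X) M : ℕ∞) := by
    have : ((N : ℕ∞) : ℝ≥0∞) ≤ (((bound (hdim T X) M : ℕ) : ℕ∞) : ℝ≥0∞) := by
      simpa using hNle
    exact ENat.toENNReal_le.1 this
  obtain ⟨N', rfl⟩ := ENat.ne_top_iff_exists.1 (ne_top_of_le_ne_top (ENat.coe_ne_top _) hNle')
  have e5 : N' = 1 ↔ (N' : ℕ∞) = 1 := by exact_mod_cast Iff.rfl
  refine ⟨N', by exact_mod_cast e1, by exact_mod_cast hNle', ⟨by simpa using e2, hq⟩,
    ?_, fun hm' => ?_⟩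
  · rw [e5, e3]
    exact Iff.rfl
  · rw [e5, e3]
    intro n
    exact (abs_iff' n).1 (k2 hm' n)

end Pool.Agent.E8helper1.TPH
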