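import Pool.Agent.Y121.AHS.CDefs

/-!
# Complex conjugation, polarisations, the part of type IV: definitions
-/

open CategoryTheory AlgebraicGeometry

open scoped ENNReal

universe u

namespace Pool.Agent.E8helper1.TPH

section generic

variable {K A : Type} [Field K] [Ring A] [Algebra K A]

/-- Hard Lefschetz: for `i ≤ d` the multiplication by `ξ ^ (d - i)` is a bijection from the elements
of degree `i` onto the elements of degree `2 d - i`. -/
def IsLefschetz (gr : ℕ → Submodule K A) (d : ℕ) (ξ : A) : Prop :=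
  ∀ i ≤ d, (∀ a ∈ gr i, ξ ^ (d - i) * a = 0 → a = 0) ∧
    ∀ b ∈ gr (2 * d - i), ∃ a ∈ gr i, ξ ^ (d - i) * a = b

/-- The number `(-1) ^ (i (i - 1) / 2) I ^ (p - q) t`, where `i = p + q`, is real and positive. -/
def IsPositive (p q : ℕ) (t : ℂ) : Prop :=
  ∃ r : ℝ, 0 < r ∧
    (-1) ^ ((p + q) * (p + q - 1) / 2) * (Complex.I ^ p * (-Complex.I) ^ q) * t = (r : ℂ)

/-- The dimension of the space spanned by the elements of the sets `S j`. -/
noncomputable def dimSpan (K : Type) {A : Type} [Field K] [Ring A] [Algebra K A]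
    (S : ℕ → Set A) : ℕ :=
  Module.finrank K (Submodule.span K (⋃ j, S j))

/-- The operators `x ↦ s (c * p x)` given by the elements `c` of the space spanned by the elements of
the sets `S j`. -/
def opsOf {B : Type} [Ring B] [Algebra K B] (p : A →ₐ[K] B) (s : B →ₗ[K] A) (S : ℕ → Set B) :
    Set (A → A) :=
  {a | ∃ c ∈ Submodule.span K (⋃ j, S j), ∀ x, s (c * p x) = a x}

/-- An element of the set `E` of operators which commutes with all elements of `E` and is skew with
respect to the trace is zero. -/
def NoSkewCentre (tr : A →ₗ[K] K) (E : Set (A → A)) : Prop :=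
  ∀ a ∈ E, (∀ b ∈ E, ∀ x, a (b x) = b (a x)) → (∀ x y, tr (a x * y) = -tr (x * a y)) → ∀ x, a x = 0

variable {V : Type} [AddCommGroup V]

/-- The map `cj` on the space `V = A ⊗ ℂ`, with the embedding `em` of `A`, the multiplication `sm`
with complex numbers, the trace `tr` and the types `ty`, is the complex conjugation: it is
semilinear and fixes the elements of `A`, and it exchanges the types `(p, q)` and `(q, p)`.
Moreover the types are effective, and only elements of type `(p, p)` have a trace. -/
structure IsConj (em : A → V) (sm : ℂ → V → V) (tr : V → ℂ) (ty : ℤ → ℤ → V → Prop)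
    (cj : V → V) : Prop where
  add : ∀ x y, cj (x + y) = cj x + cj y
  smul : ∀ l x, cj (sm l x) = sm (starRingEnd ℂ l) (cj x)
  real : ∀ c, cj (em c) = em c
  type : ∀ p q x, ty p q x → ty q p (cj x)
  eff : ∀ p q x, ty p q x → x ≠ 0 → 0 ≤ p ∧ 0 ≤ q
  top : ∀ p q x, ty p q x → tr x ≠ 0 → p = q

/-- The Hodge-Riemann relations: `L` is the multiplication with the class of a divisor, `d` the
dimension. -/
def IsRiemann (d : ℕ) (L : V → V) (mul : V → V → V) (tr : V → ℂ) (ty : ℤ → ℤ → V → Prop)
    (cj : V → V) : Prop :=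
  ∀ (p q : ℕ) (x : V), p + q ≤ d → ty p q x → x ≠ 0 → L^[d - (p + q) + 1] x = 0 →
    IsPositive p q (tr (L^[d - (p + q)] (mul x (cj x))))

/-- The element `ξ` satisfies hard Lefschetz and the Hodge-Riemann relations. -/
def IsPolarisation (gr : ℕ → Submodule K A) (d : ℕ) (em : A → V) (mul : V → V → V) (tr : V → ℂ)
    (ty : ℤ → ℤ → V → Prop) (cj : V → V) (ξ : A) : Prop :=
  IsLefschetz gr d ξ ∧ IsRiemann d (mul (em ξ)) mul tr ty cj

end generic

/-- The quotients `t n / s n` tend to `N`, and they are at most `C` for odd `n`. -/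
def Quot (t s : ℕ → ℕ) (C N : ℕ) : Prop :=
  Filter.Tendsto (fun n => (t n : ℝ≥0∞) / s n) Filter.atTop (nhds (N : ℝ≥0∞)) ∧
    ∀ n, t (2 * n + 1) ≤ C * s (2 * n + 1)

/-- The exponent `b! * (max 1 d) ^ (b - 1)`. -/
def exponent (b d : ℕ) : ℕ := b.factorial * max 1 d ^ (b - 1)

/-- The bound `(2 b M) ^ (2 b ^ 2)`. -/
def bound (b M : ℕ) : ℕ := (2 * b * M) ^ (2 * b ^ 2)

open Pool.Agent.H914 Pool.Agent.H914.VarClass Pool.Agent.H914.VarClass.Obj
  Pool.Agent.H914.WeilCohomology
open Pool.Agent.Y121.AHS

variable {k : Type u} [Field k] {𝒱 : VarClass k} {ops : CycleOps 𝒱}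

/-- The complex conjugation of the cohomology with complex coefficients with respect to the rational
cohomology, and further properties of the Hodge decomposition (see `IsConj`). -/
structure Conj (T : HodgeTheory ops) where
  /-- the complex conjugation -/
  cj : ∀ X : 𝒱.Obj, HL T.W ℂ X → HL T.W ℂ X
  is : ∀ X : 𝒱.Obj, IsConj (emL T.W ℂ) smL trL (IsType T.pq) (cj X)

/-- The divisor `D` is a polarisation of `X`: its class satisfies the hard Lefschetz theorem and
the Hodge-Riemann relations. -/
def Conj.Polarizes {T : HodgeTheory ops} (C : Conj T) (X : 𝒱.Obj) (D : X.Cycles) : Prop :=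
  X.IsCyc 1 D ∧
    IsPolarisation (T.W.gr X) X.dim (emL T.W ℂ) mulL trL (IsType T.pq) (C.cj X) (T.W.cl X D)

/-- The Hodge classes of degree `2 j`. -/
def hodge (T : HodgeTheory ops) (X : 𝒱.Obj) (j : ℕ) : Set (T.W.H X) := {c | IsHodge T X j c}

/-- The absolutely Hodge classes of degree `2 j`. -/
def abs {T : HodgeTheory ops} (D : Full.Conjugates T) (X : 𝒱.Obj) (j : ℕ) : Set (T.W.H X) :=
  {c | Full.IsAbsHodge D X j c}

/-- There is no part of type IV: for the operators on the cohomology of `X` given by sums of Hodge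
classes on `X × X`, the central skew elements are zero. -/
def NoTypeFour (T : HodgeTheory ops) (X : 𝒱.Obj) : Prop :=
  NoSkewCentre (T.W.tr X)
    (opsOf (T.W.map (fst X X)) (T.W.push (snd X X)) (hodge T (X.prod X)))

/-- The absolute Hodge conjecture for `X`: all Hodge classes on `X` are absolutely Hodge. -/
def AbsConj {T : HodgeTheory ops} (D : Full.Conjugates T) (X : 𝒱.Obj) : Prop :=
  ∀ j, hodge T X j ⊆ abs D X j

/-- The number of linearly independent Hodge classes on `X`. -/
noncomputable def hodgeDim (T : HodgeTheory ops) (X : 𝒱.Obj) : ℕ := dimSpan T.W.K (hodge T X)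

/-- The number of linearly independent absolutely Hodge classes on `X`. -/
noncomputable def absDim {T : HodgeTheory ops} (D : Full.Conjugates T) (X : 𝒱.Obj) : ℕ :=
  dimSpan T.W.K (abs D X)

/-- The dimension of the whole cohomology of `X`. -/
noncomputable def hdim (T : HodgeTheory ops) (X : 𝒱.Obj) : ℕ := Module.finrank T.W.K (T.W.H X)

end Pool.Agent.E8helper1.TPH
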